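import Mathlib
import Pool.Agent.H504R3.SDefs

/-!
# Simplicity of a continuous theory of tracial von Neumann algebras

Models of `Th(R)`, elementary embeddings, indiscernible sequences, dividing, simplicity.
-/

set_option autoImplicit false

namespace Pool.Agent.TH727

open Pool.Agent.H504R3.S

/-- `M` is a model of `Th(R)`: a tracial von Neumann algebra in which every sentence has the same
value as in `R`. -/
def IsModel (R M : Str) : Prop := M.IsTVN ∧ M.ElemEq R

/-- `f` is an elementary embedding of `M` into `N`: it preserves the value of every formula. -/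
def IsElementary (M N : Str) (f : M.carrier → N.carrier) : Prop :=
  ∀ (n : ℕ) (φ : Fm n) (x : Fin n → M.carrier), φ.val N (fun i => f (x i)) = φ.val M x

/-- The sequence `c 0, c 1, c 2, …` of tuples `c p = (c p b)` of elements of `M` is
`A`-indiscernible: for all formulas `φ`, all `p 0 < … < p k` and all parameters from `A`, the value
of `φ` at entries of `c (p 0), …, c (p k)` and the parameters does not change when
`p 0 < … < p k` is replaced by `γ (p 0) < … < γ (p k)`. -/
def IsIndiscernible (M : Str) (A : Set M.carrier) {ι : Type} (c : ℕ → ι → M.carrier) : Prop :=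
  ∀ (n : ℕ) (φ : Fm n) (s : Fin n → (ℕ × ι) ⊕ A) (γ : ℕ → ℕ), StrictMono γ →
    φ.val M (fun i => Sum.elim (fun v : ℕ × ι => c (γ v.1) v.2) (fun a : A => a.1) (s i)) =
      φ.val M (fun i => Sum.elim (fun v : ℕ × ι => c v.1 v.2) (fun a : A => a.1) (s i))

/-- `A` is separable: it has a countable 2-norm dense subset. -/
def IsSeparableSet (M : Str) (A : Set M.carrier) : Prop :=
  ∃ D ⊆ A, D.Countable ∧ ∀ a ∈ A, ∀ ε : ℝ, 0 < ε → ∃ d ∈ D, M.norm2 (M.sub a d) < ε

/-- Let `M` be a model of `Th(R)`, `B ⊆ M`, `g : M → N` an elementary extension, `a` a finite tuple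
in `N` and `p(x, B)` the type of `a` over `B`. Then `p(x, B)` divides over `A ⊆ M`: in an elementary
extension `f : M → M'` there is an `A`-indiscernible sequence `c 0, c 1, …` of tuples indexed by
`B` with `c 0 = B` such that the union of the types `p(x, c i)` is inconsistent, that is, it is
realised in no elementary extension `h : M' → M''`. -/
def Divides (R M : Str) (B A : Set M.carrier) (N : Str) (g : M.carrier → N.carrier) {m : ℕ}
    (a : Fin m → N.carrier) : Prop :=
  ∃ (M' : Str) (f : M.carrier → M'.carrier) (c : ℕ → B → M'.carrier),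
    IsModel R M' ∧ IsElementary M M' f ∧ (∀ b : B, c 0 b = f b) ∧
    IsIndiscernible M' (f '' A) c ∧
    ¬ ∃ (M'' : Str) (h : M'.carrier → M''.carrier) (a' : Fin m → M''.carrier),
      IsModel R M'' ∧ IsElementary M' M'' h ∧
        ∀ (i n : ℕ) (φ : Fm (m + n)) (b : Fin n → B),
          φ.val M'' (Fin.append a' fun k => h (c i (b k))) =
            φ.val N (Fin.append a fun k => g (b k))

/-- `Th(R)` is simple: for every model `M`, every `B ⊆ M` and every type over `B` (of a finite tuple
`a` in an elementary extension `N` of `M`) there is a separable `A ⊆ B` over which the type does not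
divide. -/
def IsSimpleTheory (R : Str) : Prop :=
  ∀ (M : Str) (B : Set M.carrier) (N : Str) (g : M.carrier → N.carrier) (m : ℕ)
    (a : Fin m → N.carrier), IsModel R M → IsModel R N → IsElementary M N g →
      ∃ A ⊆ B, IsSeparableSet M A ∧ ¬ Divides R M B A N g a

end Pool.Agent.TH727
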