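import Mathlib
import Pool.Agent.TH727.SimpleDefs

/-!
Uniform bounds for the values of formulas.
-/

set_option autoImplicit false
set_option linter.unusedSectionVars false

open scoped InnerProductSpace

namespace Pool.Agent.TH727

open Pool.Agent.H504R3.S

/-- elementary norm facts -/
structure Nice (M : Str) : Prop where
  nonneg : ∀ x, 0 ≤ M.nrm x
  one : M.nrm M.one ≤ 1
  add : ∀ x y, M.nrm (M.add x y) ≤ M.nrm x + M.nrm y
  mul : ∀ x y, M.nrm (M.mul x y) ≤ M.nrm x * M.nrm y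
  adj : ∀ x, M.nrm (M.adj x) ≤ M.nrm x
  scal : ∀ c x, M.nrm (M.scal c x) ≤ ‖c‖ * M.nrm x
  tr : ∀ x, ‖M.tr x‖ ≤ M.nrm x

theorem nice_of_tvn (M : Str) (h : M.IsTVN) : Nice M := by
  obtain ⟨H, i1, i2, i3, N, ξ, hs, rfl, h1, -, -⟩ := h
  refine ⟨fun x => norm_nonneg x.1, ?_, fun x y => norm_add_le x.1 y.1,
    fun x y => norm_mul_le x.1 y.1, fun x => (norm_star x.1).le, fun c x => ?_, fun x => ?_⟩
  · show ‖(1 : H →L[ℂ] H)‖ ≤ 1
    exact ContinuousLinearMap.norm_id_le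
  · show ‖c • x.1‖ ≤ _
    exact norm_smul_le _ _
  · have hx : ∀ k, ‖⟪ξ k, x.1 (ξ k)⟫_ℂ‖ ≤ ‖x.1‖ * ‖ξ k‖ ^ 2 := by
      intro k
      refine (norm_inner_le_norm _ _).trans ?_
      have h1 := x.1.le_opNorm (ξ k)
      have h2 := norm_nonneg (ξ k)
      nlinarith
    have hone : ∑' k, ‖ξ k‖ ^ 2 = 1 := by
      have h2 : (∑' k, ⟪ξ k, (1 : H →L[ℂ] H) (ξ k)⟫_ℂ) = 1 := h1
      have h3 : (∑' k, ⟪ξ k, (1 : H →L[ℂ] H) (ξ k)⟫_ℂ) = ((∑' k, ‖ξ k‖ ^ 2 : ℝ) : ℂ) := by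
        rw [Complex.ofReal_tsum]
        refine tsum_congr fun k => ?_
        show ⟪ξ k, ξ k⟫_ℂ = _
        rw [inner_self_eq_norm_sq_to_K]
        push_cast
        rfl
      rw [h3] at h2
      exact_mod_cast h2
    have hsum : Summable fun k => ‖x.1‖ * ‖ξ k‖ ^ 2 := hs.mul_left _
    have h5 : Summable fun k => ‖⟪ξ k, x.1 (ξ k)⟫_ℂ‖ :=
      Summable.of_nonneg_of_le (fun k => norm_nonneg _) hx hsum
    show ‖∑' k, ⟪ξ k, x.1 (ξ k)⟫_ℂ‖ ≤ ‖x.1‖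
    calc ‖∑' k, ⟪ξ k, x.1 (ξ k)⟫_ℂ‖ ≤ ∑' k, ‖⟪ξ k, x.1 (ξ k)⟫_ℂ‖ := norm_tsum_le_tsum_norm h5
      _ ≤ ∑' k, ‖x.1‖ * ‖ξ k‖ ^ 2 := h5.tsum_le_tsum hx hsum
      _ = ‖x.1‖ := by rw [tsum_mul_left, hone, mul_one]

theorem Nice.zero {M : Str} (h : Nice M) : M.nrm M.zero ≤ 0 := by
  have := h.scal 0 M.one
  rw [norm_zero, zero_mul] at this
  exact this

theorem Nice.ball_nonempty {M : Str} (h : Nice M) (r : ℕ) : Nonempty (M.Ball r) :=
  ⟨⟨M.zero, h.zero.trans (Nat.cast_nonneg r)⟩⟩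

/-- bound for terms -/
theorem term_bound {V : Type} (t : Tm V) (R : ℝ) : ∃ C : ℝ, 0 ≤ C ∧ ∀ M : Str, Nice M →
    ∀ x : V → M.carrier, (∀ v, M.nrm (x v) ≤ R) → M.nrm (t.val M x) ≤ C := by
  induction t with
  | var v => exact ⟨max R 0, le_max_right _ _, fun M _ x hx => (hx v).trans (le_max_left _ _)⟩
  | one => exact ⟨1, zero_le_one, fun M hM x _ => hM.one⟩
  | add s t hs ht =>
    obtain ⟨C, hC, h1⟩ := hs
    obtain ⟨D, hD, h2⟩ := ht
    exact ⟨C + D, add_nonneg hC hD, fun M hM x hx =>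
      (hM.add _ _).trans (add_le_add (h1 M hM x hx) (h2 M hM x hx))⟩
  | mul s t hs ht =>
    obtain ⟨C, hC, h1⟩ := hs
    obtain ⟨D, hD, h2⟩ := ht
    exact ⟨C * D, mul_nonneg hC hD, fun M hM x hx =>
      (hM.mul _ _).trans (mul_le_mul (h1 M hM x hx) (h2 M hM x hx) (hM.nonneg _) hC)⟩
  | adj s hs =>
    obtain ⟨C, hC, h1⟩ := hs
    exact ⟨C, hC, fun M hM x hx => (hM.adj _).trans (h1 M hM x hx)⟩
  | scal c s hs =>
    obtain ⟨C, hC, h1⟩ := hs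
    exact ⟨‖c‖ * C, mul_nonneg (norm_nonneg _) hC, fun M hM x hx =>
      (hM.scal _ _).trans (mul_le_mul_of_nonneg_left (h1 M hM x hx) (norm_nonneg _))⟩

theorem cons_bound {M : Str} {n : ℕ} {R : ℝ} {r : ℕ} (y : M.Ball r) (x : Fin n → M.carrier)
    (hx : ∀ v, M.nrm (x v) ≤ R) :
    ∀ v, M.nrm ((Fin.cons y.1 x : Fin (n + 1) → M.carrier) v) ≤ max R r := by
  intro v
  refine Fin.cases ?_ (fun i => ?_) v
  · rw [Fin.cons_zero]
    exact y.2.trans (le_max_right _ _)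
  · rw [Fin.cons_succ]
    exact (hx i).trans (le_max_left _ _)

theorem abs_iSup_le' {ι : Type} [Nonempty ι] (f : ι → ℝ) (C : ℝ) (h : ∀ i, |f i| ≤ C) :
    |⨆ i, f i| ≤ C := by
  have hb : BddAbove (Set.range f) := ⟨C, by rintro _ ⟨i, rfl⟩; exact (abs_le.1 (h i)).2⟩
  rw [abs_le]
  obtain ⟨i⟩ := ‹Nonempty ι›
  exact ⟨(abs_le.1 (h i)).1.trans (le_ciSup hb i), ciSup_le fun i => (abs_le.1 (h i)).2⟩

theorem abs_iInf_le' {ι : Type} [Nonempty ι] (f : ι → ℝ) (C : ℝ) (h : ∀ i, |f i| ≤ C) :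
    |⨅ i, f i| ≤ C := by
  have hb : BddBelow (Set.range f) := ⟨-C, by rintro _ ⟨i, rfl⟩; exact (abs_le.1 (h i)).1⟩
  rw [abs_le]
  obtain ⟨i⟩ := ‹Nonempty ι›
  exact ⟨le_ciInf fun i => (abs_le.1 (h i)).1, (ciInf_le hb i).trans (abs_le.1 (h i)).2⟩

/-- bound for formulas -/
theorem fm_bound {n : ℕ} (φ : Fm n) : ∀ R : ℝ, ∃ C : ℝ, ∀ M : Str, Nice M →
    ∀ x : Fin n → M.carrier, (∀ v, M.nrm (x v) ≤ R) → |φ.val M x| ≤ C := by
  induction φ with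
  | re t =>
    intro R
    obtain ⟨C, hC, h⟩ := term_bound t R
    exact ⟨C, fun M hM x hx => (Complex.abs_re_le_norm _).trans ((hM.tr _).trans (h M hM x hx))⟩
  | im t =>
    intro R
    obtain ⟨C, hC, h⟩ := term_bound t R
    exact ⟨C, fun M hM x hx => (Complex.abs_im_le_norm _).trans ((hM.tr _).trans (h M hM x hx))⟩
  | nrm t =>
    intro R
    obtain ⟨C, hC, h⟩ := term_bound t R
    refine ⟨C, fun M hM x hx => ?_⟩
    show |Real.sqrt _| ≤ C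
    rw [abs_of_nonneg (Real.sqrt_nonneg _)]
    refine Real.sqrt_le_iff.2 ⟨hC, ?_⟩
    refine (Complex.re_le_norm _).trans ((hM.tr _).trans ((hM.mul _ _).trans ?_))
    rw [sq]
    exact mul_le_mul ((hM.adj _).trans (h M hM x hx)) (h M hM x hx) (hM.nonneg _) hC
  | conn u φ ih =>
    intro R
    choose C hC using fun i => ih i R
    have hK : IsCompact (Set.pi Set.univ fun i => Set.Icc (-C i) (C i)) :=
      isCompact_univ_pi fun i => isCompact_Icc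
    obtain ⟨D, hD⟩ := hK.exists_bound_of_continuousOn u.continuous.continuousOn
    refine ⟨D, fun M hM x hx => ?_⟩
    exact hD _ fun i _ => abs_le.1 (hC i M hM x hx)
  | sup r φ ih =>
    intro R
    obtain ⟨C, hC⟩ := ih (max R r)
    refine ⟨C, fun M hM x hx => ?_⟩
    have := hM.ball_nonempty r
    exact abs_iSup_le' _ C fun y => hC M hM _ (cons_bound y x hx)
  | inf r φ ih =>
    intro R
    obtain ⟨C, hC⟩ := ih (max R r)
    refine ⟨C, fun M hM x hx => ?_⟩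
    have := hM.ball_nonempty r
    exact abs_iInf_le' _ C fun y => hC M hM _ (cons_bound y x hx)

end Pool.Agent.TH727
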