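import Mathlib
import Pool.Agent.Helper278.TrAlg

/-!
Unitaries which permute commuting systems of matrix units.
-/

set_option autoImplicit false
set_option linter.unusedSectionVars false

namespace Pool.Agent.TH727

open Pool.Agent.Helper278 (TrAlg n2)

/-- commuting systems of `2 × 2` matrix units -/
structure Units {A : Type} [Ring A] [StarRing A] (e : ℕ → Fin 2 → Fin 2 → A) : Prop where
  mul : ∀ k a b c d, e k a b * e k c d = if b = c then e k a d else 0
  star : ∀ k a b, star (e k a b) = e k b a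
  one : ∀ k, e k 0 0 + e k 1 1 = 1
  comm : ∀ k l, k ≠ l → ∀ a b c d, e k a b * e l c d = e l c d * e k a b

section

variable {A : Type} [Ring A] [StarRing A] {e : ℕ → Fin 2 → Fin 2 → A}

/-- the swap -/
def Fl (e : ℕ → Fin 2 → Fin 2 → A) (k l : ℕ) : A := ∑ a, ∑ b, e k a b * e l b a

theorem Fl_star (h : Units e) {k l : ℕ} (hkl : k ≠ l) : star (Fl e k l) = Fl e k l := by
  unfold Fl
  rw [star_sum, Finset.sum_comm]
  refine Finset.sum_congr rfl fun a _ => ?_
  rw [star_sum]
  refine Finset.sum_congr rfl fun b _ => ?_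
  rw [star_mul, h.star, h.star, h.comm k l hkl]

theorem Fl_mul_k (h : Units e) {k l : ℕ} (hkl : k ≠ l) (c d : Fin 2) :
    Fl e k l * e k c d = ∑ a, e k a d * e l c a := by
  unfold Fl
  rw [Finset.sum_mul]
  refine Finset.sum_congr rfl fun a _ => ?_
  rw [Finset.sum_mul, Finset.sum_eq_single c]
  · rw [mul_assoc, ← h.comm k l hkl, ← mul_assoc, h.mul, if_pos rfl]
  · intro b _ hb
    rw [mul_assoc, ← h.comm k l hkl, ← mul_assoc, h.mul, if_neg hb, zero_mul]
  · intro hc
    exact absurd (Finset.mem_univ c) hc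

theorem Fl_mul_l (h : Units e) {k l : ℕ} (hkl : k ≠ l) (c d : Fin 2) :
    Fl e k l * e l c d = ∑ b, e k c b * e l b d := by
  unfold Fl
  rw [Finset.sum_mul, Finset.sum_eq_single c]
  · rw [Finset.sum_mul]
    refine Finset.sum_congr rfl fun b _ => ?_
    rw [mul_assoc, h.mul, if_pos rfl]
  · intro a _ ha
    rw [Finset.sum_mul]
    refine Finset.sum_eq_zero fun b _ => ?_
    rw [mul_assoc, h.mul, if_neg ha, mul_zero]
  · intro hc
    exact absurd (Finset.mem_univ c) hc

theorem l_mul_Fl (h : Units e) {k l : ℕ} (hkl : k ≠ l) (c d : Fin 2) :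
    e l c d * Fl e k l = ∑ a, e k a d * e l c a := by
  unfold Fl
  rw [Finset.mul_sum]
  refine Finset.sum_congr rfl fun a _ => ?_
  rw [Finset.mul_sum, Finset.sum_eq_single d]
  · rw [← mul_assoc, ← h.comm k l hkl, mul_assoc, h.mul, if_pos rfl]
  · intro b _ hb
    rw [← mul_assoc, ← h.comm k l hkl, mul_assoc, h.mul, if_neg (Ne.symm hb), mul_zero]
  · intro hc
    exact absurd (Finset.mem_univ d) hc

theorem k_mul_Fl (h : Units e) {k l : ℕ} (hkl : k ≠ l) (c d : Fin 2) :
    e k c d * Fl e k l = ∑ b, e k c b * e l b d := by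
  unfold Fl
  rw [Finset.mul_sum, Finset.sum_eq_single d]
  · rw [Finset.mul_sum]
    refine Finset.sum_congr rfl fun b _ => ?_
    rw [← mul_assoc, h.mul, if_pos rfl]
  · intro a _ ha
    rw [Finset.mul_sum]
    refine Finset.sum_eq_zero fun b _ => ?_
    rw [← mul_assoc, h.mul, if_neg (Ne.symm ha), zero_mul]
  · intro hc
    exact absurd (Finset.mem_univ d) hc

theorem sum_diag (h : Units e) (k : ℕ) : ∑ a, e k a a = 1 := by
  rw [Fin.sum_univ_two]
  exact h.one k

theorem Fl_sq (h : Units e) {k l : ℕ} (hkl : k ≠ l) : Fl e k l * Fl e k l = 1 := by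
  have h1 : Fl e k l * Fl e k l = ∑ a, ∑ b, e k a a * e l b b := by
    conv_lhs => rw [show Fl e k l * Fl e k l = (∑ c, ∑ d, e k c d * e l d c) * Fl e k l from rfl]
    rw [Finset.sum_mul]
    refine Finset.sum_congr rfl fun c _ => ?_
    rw [Finset.sum_mul]
    refine Finset.sum_congr rfl fun d _ => ?_
    rw [mul_assoc, l_mul_Fl h hkl, Finset.mul_sum, Finset.sum_eq_single d]
    · rw [← mul_assoc, h.mul, if_pos rfl]
    · intro a _ ha
      rw [← mul_assoc, h.mul, if_neg (Ne.symm ha), zero_mul]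
    · intro hc
      exact absurd (Finset.mem_univ d) hc
  rw [h1]
  simp only [← Finset.mul_sum, sum_diag h, mul_one]

theorem Fl_comm (h : Units e) {k l m : ℕ} (hk : m ≠ k) (hl : m ≠ l) (c d : Fin 2) :
    Fl e k l * e m c d = e m c d * Fl e k l := by
  unfold Fl
  rw [Finset.sum_mul, Finset.mul_sum]
  refine Finset.sum_congr rfl fun a _ => ?_
  rw [Finset.sum_mul, Finset.mul_sum]
  refine Finset.sum_congr rfl fun b _ => ?_
  rw [mul_assoc, ← h.comm m l hl, ← mul_assoc, ← h.comm m k hk, mul_assoc]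

/-- `u` permutes the matrix units -/
def Perms (e : ℕ → Fin 2 → Fin 2 → A) (σ : Equiv.Perm ℕ) (u : A) : Prop :=
  star u * u = 1 ∧ u * star u = 1 ∧ ∀ m c d, u * e m c d = e (σ m) c d * u

theorem perms_one : Perms e 1 (1 : A) :=
  ⟨by rw [star_one, one_mul], by rw [star_one, one_mul], fun m c d => by
    rw [one_mul, mul_one]; rfl⟩

theorem perms_mul {σ τ : Equiv.Perm ℕ} {u v : A} (hu : Perms e σ u) (hv : Perms e τ v) :
    Perms e (σ * τ) (u * v) := by
  refine ⟨?_, ?_, fun m c d => ?_⟩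
  · rw [star_mul, mul_assoc, ← mul_assoc (star u), hu.1, one_mul, hv.1]
  · rw [star_mul, mul_assoc, ← mul_assoc v, hv.2.1, one_mul, hu.2.1]
  · rw [mul_assoc, hv.2.2, ← mul_assoc, hu.2.2, mul_assoc]
    rfl

theorem perms_swap (h : Units e) (k l : ℕ) : ∃ u, Perms e (Equiv.swap k l) u := by
  by_cases hkl : k = l
  · rw [hkl, Equiv.swap_self]
    exact ⟨1, perms_one⟩
  · refine ⟨Fl e k l, ?_, ?_, fun m c d => ?_⟩
    · rw [Fl_star h hkl, Fl_sq h hkl]
    · rw [Fl_star h hkl, Fl_sq h hkl]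
    · by_cases hk : m = k
      · rw [hk, Equiv.swap_apply_left, Fl_mul_k h hkl, l_mul_Fl h hkl]
      · by_cases hl : m = l
        · rw [hl, Equiv.swap_apply_right, Fl_mul_l h hkl, k_mul_Fl h hkl]
        · rw [Equiv.swap_apply_of_ne_of_ne hk hl, Fl_comm h hk hl]

/-- permutations which extend a given partial injection -/
theorem exists_perms (h : Units e) (c d : ℕ → ℕ) (n : ℕ)
    (hc : ∀ p < n, ∀ q < n, c p = c q → p = q) (hd : ∀ p < n, ∀ q < n, d p = d q → p = q) :
    ∃ (σ : Equiv.Perm ℕ) (u : A), Perms e σ u ∧ (∀ p < n, σ (c p) = d p) ∧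
      ∀ m, (∀ p < n, m ≠ c p ∧ m ≠ d p) → σ m = m := by
  induction n with
  | zero => exact ⟨1, 1, perms_one, fun p hp => absurd hp (Nat.not_lt_zero p), fun m _ => rfl⟩
  | succ n ih =>
    obtain ⟨σ, u, hu, h1, h2⟩ := ih (fun p hp q hq => hc p (by omega) q (by omega))
      (fun p hp q hq => hd p (by omega) q (by omega))
    obtain ⟨v, hv⟩ := perms_swap h (σ (c n)) (d n)
    refine ⟨_, _, perms_mul hv hu, fun p hp => ?_, fun m hm => ?_⟩
    · rw [Equiv.Perm.mul_apply]
      rcases Nat.lt_succ_iff_lt_or_eq.1 hp with hpn | rfl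
      · rw [h1 p hpn]
        refine Equiv.swap_apply_of_ne_of_ne ?_ ?_
        · intro h3
          rw [← h1 p hpn] at h3
          have := hc p hp n (Nat.lt_succ_self n) (σ.injective h3)
          omega
        · intro h3
          have := hd p hp n (Nat.lt_succ_self n) h3
          omega
      · exact Equiv.swap_apply_left _ _
    · have h3 : σ m = m := h2 m fun p hp => hm p (by omega)
      rw [Equiv.Perm.mul_apply, h3]
      refine Equiv.swap_apply_of_ne_of_ne ?_ (hm n (Nat.lt_succ_self n)).2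
      intro h4
      rw [← h3] at h4
      exact (hm n (Nat.lt_succ_self n)).1 (σ.injective h4)

end

section

variable {A : Type} [Ring A] [StarRing A] [Algebra ℂ A] [StarModule ℂ A]
  {e : ℕ → Fin 2 → Fin 2 → A} {τ : A →ₗ[ℂ] ℂ}

theorem tr_half (h : Units e) (hτ : TrAlg τ) (k : ℕ) (x : A) (hx : e k 1 0 * x = x * e k 1 0) :
    τ (e k 0 0 * x) = τ x / 2 := by
  have h1 : τ (e k 0 0 * x) = τ (e k 1 1 * x) := by
    have e1 : e k 0 0 * x = e k 0 1 * (e k 1 0 * x) := by
      rw [← mul_assoc, h.mul, if_pos rfl]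
    rw [e1, hτ.comm, hx, mul_assoc, h.mul, if_pos rfl, hτ.comm]
  have h2 : τ x = τ (e k 0 0 * x) + τ (e k 1 1 * x) := by
    rw [← map_add, ← add_mul, h.one, one_mul]
  rw [h2, ← h1]
  ring

theorem n2_dist (h : Units e) (hτ : TrAlg τ) {k l : ℕ} (hkl : k ≠ l) :
    n2 τ (e k 0 0 - e l 0 0) = Real.sqrt (1 / 2) := by
  unfold n2
  congr 1
  have e1 : star (e k 0 0 - e l 0 0) * (e k 0 0 - e l 0 0) =
      e k 0 0 + e l 0 0 - e k 0 0 * e l 0 0 - e k 0 0 * e l 0 0 := by
    rw [star_sub, h.star, h.star, sub_mul, mul_sub, mul_sub, h.mul, if_pos rfl, h.mul, if_pos rfl,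
      ← h.comm k l hkl]
    abel
  have e2 : ∀ m, τ (e m 0 0) = 1 / 2 := by
    intro m
    have := tr_half h hτ m 1 (by rw [mul_one, one_mul])
    rwa [mul_one, hτ.one] at this
  rw [e1, map_sub, map_sub, map_add, tr_half h hτ k _ (h.comm k l hkl _ _ _ _), e2, e2]
  norm_num

end

end Pool.Agent.TH727
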