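import Mathlib
import Pool.Agent.TH727.Bounds
import Pool.Agent.TH727.SwapU
import Pool.Agent.Helper278.Trace

/-!
Invariance of formulas under automorphisms, and the facts on the hyperfinite factor.
-/

set_option autoImplicit false
set_option linter.unusedSectionVars false

open scoped InnerProductSpace

namespace Pool.Agent.TH727

open Pool.Agent.H504R3.S
open Pool.Agent.Helper278 (Elt TracialState TrAlg trAlg n2 mkState)

/-- automorphisms of a structure -/
structure IsAut (M : Str) (α : M.carrier → M.carrier) : Prop where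
  one : α M.one = M.one
  add : ∀ x y, α (M.add x y) = M.add (α x) (α y)
  mul : ∀ x y, α (M.mul x y) = M.mul (α x) (α y)
  adj : ∀ x, α (M.adj x) = M.adj (α x)
  scal : ∀ c x, α (M.scal c x) = M.scal c (α x)
  nrm : ∀ x, M.nrm (α x) = M.nrm x
  tr : ∀ x, M.tr (α x) = M.tr x
  surj : Function.Surjective α

variable {M : Str} {α : M.carrier → M.carrier}

theorem IsAut.term (h : IsAut M α) {V : Type} (x : V → M.carrier) :
    ∀ t : Tm V, t.val M (fun v => α (x v)) = α (t.val M x)
  | .var v => rfl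
  | .one => h.one.symm
  | .add s t => by
    show M.add _ _ = α (M.add _ _)
    rw [h.add, h.term x s, h.term x t]
  | .mul s t => by
    show M.mul _ _ = α (M.mul _ _)
    rw [h.mul, h.term x s, h.term x t]
  | .adj s => by
    show M.adj _ = α (M.adj _)
    rw [h.adj, h.term x s]
  | .scal c s => by
    show M.scal _ _ = α (M.scal _ _)
    rw [h.scal, h.term x s]

theorem cons_comp {X Y : Type} {n : ℕ} (f : X → Y) (y : X) (x : Fin n → X) :
    (Fin.cons (f y) (fun i => f (x i)) : Fin (n + 1) → Y) =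
      fun i => f ((Fin.cons y x : Fin (n + 1) → X) i) := by
  funext i
  refine Fin.cases ?_ (fun i => ?_) i
  · rw [Fin.cons_zero, Fin.cons_zero]
  · rw [Fin.cons_succ, Fin.cons_succ]

/-- formulas are invariant under automorphisms -/
theorem IsAut.val (h : IsAut M α) {n : ℕ} (φ : Fm n) :
    ∀ x : Fin n → M.carrier, φ.val M (fun i => α (x i)) = φ.val M x := by
  have hsurj : ∀ r : ℕ, Function.Surjective
      (fun y : M.Ball r => (⟨α y.1, (h.nrm y.1).trans_le y.2⟩ : M.Ball r)) := by
    rintro r ⟨y, hy⟩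
    obtain ⟨z, rfl⟩ := h.surj y
    exact ⟨⟨z, (h.nrm z).symm.trans_le hy⟩, rfl⟩
  induction φ with
  | re t =>
    intro x
    show (M.tr _).re = (M.tr _).re
    rw [h.term x t, h.tr]
  | im t =>
    intro x
    show (M.tr _).im = (M.tr _).im
    rw [h.term x t, h.tr]
  | nrm t =>
    intro x
    show Real.sqrt _ = Real.sqrt _
    rw [h.term x t, ← h.adj, ← h.mul, h.tr]
  | conn u φ ih =>
    intro x
    show u _ = u _
    congr 1
    funext i
    exact ih i x
  | sup r φ ih =>
    intro x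
    show (⨆ y : M.Ball r, φ.val M (Fin.cons y.1 fun i => α (x i))) =
      ⨆ y : M.Ball r, φ.val M (Fin.cons y.1 x)
    rw [← (hsurj r).iSup_comp]
    refine iSup_congr fun y => ?_
    refine Eq.trans (congrArg (φ.val M) (cons_comp α y.1 x)) (ih _)
  | inf r φ ih =>
    intro x
    show (⨅ y : M.Ball r, φ.val M (Fin.cons y.1 fun i => α (x i))) =
      ⨅ y : M.Ball r, φ.val M (Fin.cons y.1 x)
    rw [← (hsurj r).iInf_comp]
    refine iInf_congr fun y => ?_
    refine Eq.trans (congrArg (φ.val M) (cons_comp α y.1 x)) (ih _)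

/-- a tracial von Neumann algebra given by an algebra and a trace -/
theorem exists_state (M : Str) (hM : M.IsTVN) :
    ∃ (H : Type) (_ : NormedAddCommGroup H) (_ : InnerProductSpace ℂ H) (_ : CompleteSpace H)
      (N : VonNeumannAlgebra H) (ξ : ℕ → H) (T : TracialState N), M = vnStr N ξ ∧
      ∀ x : Elt N, T.τ x = ∑' k, ⟪ξ k, (x : H →L[ℂ] H) (ξ k)⟫_ℂ := by
  obtain ⟨H, i1, i2, i3, N0, ξ, hs, rfl, h1, h2, h3⟩ := hM
  exact ⟨H, i1, i2, i3, N0, ξ, mkState N0
    (fun x => ∑' k, ⟪ξ k, (x : H →L[ℂ] H) (ξ k)⟫_ℂ) ⟨ξ, hs, fun x => rfl⟩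
    ⟨h1, h2, fun x hx => by
      have := h3 x hx
      rw [this]
      exact Subtype.ext (zero_smul ℂ (1 : H →L[ℂ] H))⟩, rfl, fun x => rfl⟩

/-- the 2-norm is a norm -/
theorem eq_of_norm2 (M : Str) (hM : M.IsTVN) (x y : M.carrier) (h : M.norm2 (M.sub x y) = 0) :
    x = y := by
  obtain ⟨H, i1, i2, i3, N0, ξ, T, rfl, hT⟩ := exists_state M hM
  have hA := trAlg T
  let X : Elt N0 := x
  let Y : Elt N0 := y
  have e0 : (vnStr N0 ξ).sub x y = X - Y := by
    show X + (-1 : ℂ) • Y = X - Y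
    rw [neg_one_smul, sub_eq_add_neg]
  have h1 : n2 T.τ (X - Y) = 0 := by
    rw [← h, e0]
    show Real.sqrt _ = Real.sqrt _
    rw [hT]
    rfl
  have h2 := hA.n2_sq (X - Y)
  rw [h1] at h2
  have h3 : T.τ (star (X - Y) * (X - Y)) = 0 := by
    apply Complex.ext
    · rw [← h2]
      norm_num
    · exact hA.im_zero _
  have h4 : X = Y := sub_eq_zero.1 (hA.faithful _ h3)
  exact h4

/-- the facts on the hyperfinite factor that we use -/
theorem hyperfinite_facts (R : Str) (hR : R.IsHyperfinite) : ∃ P : ℕ → R.carrier,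
    (∀ k, R.nrm (P k) ≤ 1) ∧
    (∀ k l, k ≠ l → R.norm2 (R.sub (P k) (P l)) = Real.sqrt (1 / 2)) ∧
    ∀ (c d : ℕ → ℕ) (n : ℕ), (∀ p < n, ∀ q < n, c p = c q → p = q) →
      (∀ p < n, ∀ q < n, d p = d q → p = q) →
      ∃ (σ : ℕ → ℕ) (u : R.carrier), (∀ p < n, σ (c p) = d p) ∧
        (∀ m, (∀ p < n, m ≠ c p ∧ m ≠ d p) → σ m = m) ∧ R.nrm u ≤ 1 ∧
        IsAut R (fun x => R.mul (R.mul u x) (R.adj u)) ∧
        ∀ m, R.mul (R.mul u (P m)) (R.adj u) = P (σ m) := by
  obtain ⟨hTVN, e, he, hcomm, -⟩ := hR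
  obtain ⟨H, i1, i2, i3, N0, ξ, T, rfl, hT⟩ := exists_state R hTVN
  have hA := trAlg T
  let E : ℕ → Fin 2 → Fin 2 → Elt N0 := e
  have hzero : (vnStr N0 ξ).zero = (0 : Elt N0) := zero_smul ℂ (1 : Elt N0)
  have hE : Units E := by
    refine ⟨fun k a b c d => ?_, fun k a b => (he k).adj a b, fun k => (he k).one,
      fun k l hkl a b c d => hcomm k l hkl a b c d⟩
    have h1 := (he k).mul a b c d
    rw [hzero] at h1
    exact h1
  have hnorm : ∀ x : Elt N0, star x * x = 1 → ‖x‖ ≤ 1 := by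
    intro x hx
    have h1 : ‖star x * x‖ = ‖x‖ * ‖x‖ := CStarRing.norm_star_mul_self
    rw [hx] at h1
    have h2 : ‖(1 : Elt N0)‖ ≤ 1 := by
      show ‖(1 : H →L[ℂ] H)‖ ≤ 1
      exact ContinuousLinearMap.norm_id_le
    nlinarith [norm_nonneg x]
  refine ⟨fun k => E k 0 0, fun k => ?_, fun k l hkl => ?_, fun c d n hc hd => ?_⟩
  · show ‖E k 0 0‖ ≤ 1
    have h1 : ‖star (E k 0 0) * E k 0 0‖ = ‖E k 0 0‖ * ‖E k 0 0‖ := CStarRing.norm_star_mul_self
    rw [hE.star, hE.mul, if_pos rfl] at h1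
    by_contra hcon
    push Not at hcon
    nlinarith
  · have h1 := n2_dist hE hA hkl
    rw [← h1]
    have e0 : (vnStr N0 ξ).sub (E k 0 0) (E l 0 0) = E k 0 0 - E l 0 0 := by
      show E k 0 0 + (-1 : ℂ) • E l 0 0 = E k 0 0 - E l 0 0
      rw [neg_one_smul, sub_eq_add_neg]
    rw [e0]
    show Real.sqrt _ = Real.sqrt _
    rw [hT]
    rfl
  · obtain ⟨σ, u, hu, h1, h2⟩ := exists_perms hE c d n hc hd
    have hus : star u * u = 1 := hu.1
    have hus' : u * star u = 1 := hu.2.1
    refine ⟨σ, u, h1, h2, hnorm u hu.1, ⟨?_, fun x y => ?_, fun x y => ?_, fun x => ?_,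
      fun c x => ?_, fun x => ?_, fun x => ?_, fun x => ?_⟩, fun m => ?_⟩
    · show u * 1 * star u = 1
      rw [mul_one, hus']
    · let X : Elt N0 := x
      let Y : Elt N0 := y
      show u * (X + Y) * star u = u * X * star u + u * Y * star u
      rw [mul_add, add_mul]
    · let X : Elt N0 := x
      let Y : Elt N0 := y
      show u * (X * Y) * star u = u * X * star u * (u * Y * star u)
      calc u * (X * Y) * star u = u * X * (1 * (Y * star u)) := by
            rw [one_mul]; simp only [mul_assoc]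
        _ = _ := by rw [← hus]; simp only [mul_assoc]
    · let X : Elt N0 := x
      show u * star X * star u = star (u * X * star u)
      rw [star_mul, star_mul, star_star, mul_assoc]
    · let X : Elt N0 := x
      show u * (c • X) * star u = c • (u * X * star u)
      rw [mul_smul_comm, smul_mul_assoc]
    · let X : Elt N0 := x
      show ‖u * X * star u‖ = ‖X‖
      have k1 : ‖star u‖ ≤ 1 := by
        rw [norm_star]
        exact hnorm u hu.1
      have k2 : ‖u‖ ≤ 1 := hnorm u hu.1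
      have k3 : ∀ Y : Elt N0, ‖u * Y * star u‖ ≤ ‖Y‖ := by
        intro Y
        calc ‖u * Y * star u‖ ≤ ‖u‖ * ‖Y‖ * ‖star u‖ := norm_mul₃_le
          _ ≤ 1 * ‖Y‖ * 1 := by gcongr
          _ = _ := by ring
      have k4 : ∀ Y : Elt N0, ‖star u * Y * u‖ ≤ ‖Y‖ := by
        intro Y
        calc ‖star u * Y * u‖ ≤ ‖star u‖ * ‖Y‖ * ‖u‖ := norm_mul₃_le
          _ ≤ 1 * ‖Y‖ * 1 := by gcongr
          _ = _ := by ring
      refine le_antisymm (k3 X) ?_
      have k5 : X = star u * (u * X * star u) * u := by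
        calc X = 1 * X * 1 := by rw [one_mul, mul_one]
          _ = _ := by rw [← hus]; simp only [mul_assoc]
      conv_lhs => rw [k5]
      exact k4 _
    · let X : Elt N0 := x
      have k1 : T.τ (u * X * star u) = T.τ X := by
        rw [hA.comm, ← mul_assoc, hus, one_mul]
      rw [hT, hT] at k1
      exact k1
    · let X : Elt N0 := x
      refine ⟨star u * X * u, ?_⟩
      show u * (star u * X * u) * star u = X
      calc u * (star u * X * u) * star u = (u * star u) * X * (u * star u) := by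
            simp only [mul_assoc]
        _ = X := by rw [hus', one_mul, mul_one]
    · show u * E m 0 0 * star u = E (σ m) 0 0
      rw [hu.2.2, mul_assoc, hus', mul_one]

end Pool.Agent.TH727
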