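import Mathlib
import Pool.Agent.TH727.Bounds

/-!
The theorem of Łoś for tracial ultrapowers.
-/

set_option autoImplicit false
set_option linter.unusedSectionVars false

open scoped InnerProductSpace Topology
open Filter

namespace Pool.Agent.TH727

open Pool.Agent.H504R3.S

/-- `N` is a tracial ultrapower of `M`: `L x y` says that the bounded sequence `x` represents
`y`. -/
structure IsUltra (M N : Str) (U : Ultrafilter ℕ) (L : (ℕ → M.carrier) → N.carrier → Prop) :
    Prop where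
  nice : Nice M
  nice' : Nice N
  bdd : ∀ x y, L x y → ∃ r : ℕ, ∀ k, M.nrm (x k) ≤ r
  one : L (fun _ => M.one) N.one
  add : ∀ x y x' y', L x y → L x' y' → L (fun k => M.add (x k) (x' k)) (N.add y y')
  mul : ∀ x y x' y', L x y → L x' y' → L (fun k => M.mul (x k) (x' k)) (N.mul y y')
  adj : ∀ x y, L x y → L (fun k => M.adj (x k)) (N.adj y)
  scal : ∀ c x y, L x y → L (fun k => M.scal c (x k)) (N.scal c y)
  tr : ∀ x y, L x y → Tendsto (fun k => M.tr (x k)) U (𝓝 (N.tr y))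
  lim : ∀ (r : ℕ) (x : ℕ → M.carrier), (∀ k, M.nrm (x k) ≤ r) → ∃ y, L x y ∧ N.nrm y ≤ r
  lift : ∀ (r : ℕ) (y : N.carrier), N.nrm y ≤ r → ∃ x, L x y ∧ ∀ k, M.nrm (x k) ≤ r

variable {M N : Str} {U : Ultrafilter ℕ} {L : (ℕ → M.carrier) → N.carrier → Prop}

theorem IsUltra.term (h : IsUltra M N U L) {V : Type} (x : ℕ → V → M.carrier)
    (y : V → N.carrier) (hxy : ∀ v, L (fun k => x k v) (y v)) :
    ∀ t : Tm V, L (fun k => t.val M (x k)) (t.val N y)
  | .var v => hxy v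
  | .one => h.one
  | .add s t => h.add _ _ _ _ (h.term x y hxy s) (h.term x y hxy t)
  | .mul s t => h.mul _ _ _ _ (h.term x y hxy s) (h.term x y hxy t)
  | .adj s => h.adj _ _ (h.term x y hxy s)
  | .scal c s => h.scal c _ _ (h.term x y hxy s)

theorem exists_lim_bdd (U : Ultrafilter ℕ) (F : ℕ → ℝ) (C : ℝ) (hF : ∀ k, |F k| ≤ C) :
    ∃ l : ℝ, Tendsto F U (𝓝 l) := by
  have hc : IsCompact (Set.Icc (-C) C) := isCompact_Icc
  have h1 : (U.map F : Ultrafilter ℝ) ≤ 𝓟 (Set.Icc (-C) C) := by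
    rw [Ultrafilter.coe_map, le_principal_iff, mem_map]
    exact Filter.Eventually.of_forall fun n => abs_le.1 (hF n)
  obtain ⟨c, _, hc2⟩ := (isCompact_iff_ultrafilter_le_nhds.1 hc) _ h1
  exact ⟨c, hc2⟩

/-- suprema -/
theorem IsUltra.sup (h : IsUltra M N U L) (hU : (U : Filter ℕ) ≤ atTop) (r : ℕ)
    (F : ℕ → M.Ball r → ℝ) (G : N.Ball r → ℝ) (C D : ℝ) (hF : ∀ k z, |F k z| ≤ C)
    (hG : ∀ z, |G z| ≤ D)
    (hFG : ∀ (z : ℕ → M.Ball r) (w : N.Ball r), L (fun k => (z k).1) w.1 →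
      Tendsto (fun k => F k (z k)) U (𝓝 (G w))) :
    Tendsto (fun k => ⨆ z, F k z) U (𝓝 (⨆ w, G w)) := by
  have := h.nice.ball_nonempty r
  have := h.nice'.ball_nonempty r
  have hbF : ∀ k, BddAbove (Set.range (F k)) := fun k =>
    ⟨C, by rintro _ ⟨i, rfl⟩; exact (abs_le.1 (hF k i)).2⟩
  have hbG : BddAbove (Set.range G) := ⟨D, by rintro _ ⟨i, rfl⟩; exact (abs_le.1 (hG i)).2⟩
  obtain ⟨l, hl⟩ := exists_lim_bdd U (fun k => ⨆ z, F k z) C fun k => abs_iSup_le' _ C (hF k)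
  have h1 : ⨆ w, G w ≤ l := by
    refine ciSup_le fun w => ?_
    obtain ⟨z, hz, hzr⟩ := h.lift r w.1 w.2
    have h2 := hFG (fun k => ⟨z k, hzr k⟩) w hz
    exact le_of_tendsto_of_tendsto' h2 hl fun k => le_ciSup (hbF k) _
  have h2 : l ≤ ⨆ w, G w := by
    have hex : ∀ k : ℕ, ∃ z : M.Ball r, (⨆ z, F k z) - 1 / ((k : ℝ) + 1) < F k z := by
      intro k
      apply exists_lt_of_lt_ciSup
      have : 0 < 1 / ((k : ℝ) + 1) := by positivity
      linarith
    choose z hz using hex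
    obtain ⟨w, hw, hwr⟩ := h.lim r (fun k => (z k).1) fun k => (z k).2
    have h3 := hFG z ⟨w, hwr⟩ hw
    have h4 : Tendsto (fun k : ℕ => (⨆ z, F k z) - 1 / ((k : ℝ) + 1)) U (𝓝 (l - 0)) :=
      hl.sub (tendsto_one_div_add_atTop_nhds_zero_nat.mono_left hU)
    rw [sub_zero] at h4
    exact (le_of_tendsto_of_tendsto' h4 h3 fun k => (hz k).le).trans (le_ciSup hbG _)
  rwa [le_antisymm h1 h2]

theorem iInf_eq_neg {ι : Type} (f : ι → ℝ) : ⨅ i, f i = -⨆ i, -f i := by
  rw [iInf, Real.sInf_def, iSup]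
  congr 2
  ext y
  simp only [Set.mem_neg, Set.mem_range]
  constructor
  · rintro ⟨i, hi⟩
    exact ⟨i, by rw [hi, neg_neg]⟩
  · rintro ⟨i, hi⟩
    exact ⟨i, by rw [← hi, neg_neg]⟩

/-- The theorem of Łoś. -/
theorem IsUltra.los (h : IsUltra M N U L) (hU : (U : Filter ℕ) ≤ atTop) {n : ℕ} (φ : Fm n) :
    ∀ (x : ℕ → Fin n → M.carrier) (y : Fin n → N.carrier), (∀ i, L (fun k => x k i) (y i)) →
      Tendsto (fun k => φ.val M (x k)) U (𝓝 (φ.val N y)) := by
  induction φ with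
  | re t =>
    intro x y hxy
    exact (Complex.continuous_re.tendsto _).comp (h.tr _ _ (h.term x y hxy t))
  | im t =>
    intro x y hxy
    exact (Complex.continuous_im.tendsto _).comp (h.tr _ _ (h.term x y hxy t))
  | nrm t =>
    intro x y hxy
    have h1 := h.term x y hxy t
    exact (Real.continuous_sqrt.tendsto _).comp ((Complex.continuous_re.tendsto _).comp
      (h.tr _ _ (h.mul _ _ _ _ (h.adj _ _ h1) h1)))
  | conn u φ ih =>
    intro x y hxy
    exact (u.continuous.tendsto _).comp (tendsto_pi_nhds.2 fun i => ih i x y hxy)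
  | @sup n r φ ih =>
    intro x y hxy
    choose b hb using fun i => h.bdd _ _ (hxy i)
    obtain ⟨C, hC⟩ := fm_bound φ (max ((∑ i, b i : ℕ) : ℝ) r)
    have hb' : ∀ k, ∀ v, M.nrm (x k v) ≤ ((∑ i, b i : ℕ) : ℝ) := fun k v => by
      refine (hb v k).trans ?_
      exact_mod_cast Finset.single_le_sum (f := b) (fun _ _ => Nat.zero_le _) (Finset.mem_univ v)
    obtain ⟨R, hR⟩ : ∃ R : ℝ, ∀ v, N.nrm (y v) ≤ R :=
      ⟨∑ v, N.nrm (y v), fun v => Finset.single_le_sum (f := fun v => N.nrm (y v))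
        (fun _ _ => h.nice'.nonneg _) (Finset.mem_univ v)⟩
    obtain ⟨D, hD⟩ := fm_bound φ (max R r)
    refine h.sup hU r (fun k z => φ.val M (Fin.cons z.1 (x k)))
      (fun w => φ.val N (Fin.cons w.1 y)) C D
      (fun k z => hC M h.nice _ (cons_bound z _ (hb' k)))
      (fun z => hD N h.nice' _ (cons_bound z _ hR)) ?_
    intro z w hzw
    refine ih (fun k => Fin.cons (z k).1 (x k)) (Fin.cons w.1 y) fun i => ?_
    refine Fin.cases ?_ (fun i => ?_) i
    · simpa only [Fin.cons_zero] using hzw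
    · simpa only [Fin.cons_succ] using hxy i
  | @inf n r φ ih =>
    intro x y hxy
    choose b hb using fun i => h.bdd _ _ (hxy i)
    obtain ⟨C, hC⟩ := fm_bound φ (max ((∑ i, b i : ℕ) : ℝ) r)
    have hb' : ∀ k, ∀ v, M.nrm (x k v) ≤ ((∑ i, b i : ℕ) : ℝ) := fun k v => by
      refine (hb v k).trans ?_
      exact_mod_cast Finset.single_le_sum (f := b) (fun _ _ => Nat.zero_le _) (Finset.mem_univ v)
    obtain ⟨R, hR⟩ : ∃ R : ℝ, ∀ v, N.nrm (y v) ≤ R :=
      ⟨∑ v, N.nrm (y v), fun v => Finset.single_le_sum (f := fun v => N.nrm (y v))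
        (fun _ _ => h.nice'.nonneg _) (Finset.mem_univ v)⟩
    obtain ⟨D, hD⟩ := fm_bound φ (max R r)
    have key := h.sup hU r (fun k z => -φ.val M (Fin.cons z.1 (x k)))
      (fun w => -φ.val N (Fin.cons w.1 y)) C D
      (fun k z => by rw [abs_neg]; exact hC M h.nice _ (cons_bound z _ (hb' k)))
      (fun z => by rw [abs_neg]; exact hD N h.nice' _ (cons_bound z _ hR)) (by
        intro z w hzw
        refine (ih (fun k => Fin.cons (z k).1 (x k)) (Fin.cons w.1 y) fun i => ?_).neg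
        refine Fin.cases ?_ (fun i => ?_) i
        · simpa only [Fin.cons_zero] using hzw
        · simpa only [Fin.cons_succ] using hxy i)
    have e1 : (fun k => (Fm.inf r φ).val M (x k)) =
        fun k => -⨆ z : M.Ball r, -φ.val M (Fin.cons z.1 (x k)) := by
      funext k
      exact iInf_eq_neg _
    have e2 : (Fm.inf r φ).val N y = -⨆ w : N.Ball r, -φ.val N (Fin.cons w.1 y) := iInf_eq_neg _
    rw [e1, e2]
    exact key.neg

/-- An ultrapower is elementarily equivalent to the base. -/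
theorem IsUltra.elemEq (h : IsUltra M N U L) (hU : (U : Filter ℕ) ≤ atTop) : N.ElemEq M := by
  intro φ
  have h1 := h.los hU φ (fun _ => Fin.elim0) Fin.elim0 fun i => i.elim0
  exact tendsto_nhds_unique tendsto_const_nhds h1 |>.symm

end Pool.Agent.TH727
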