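import Mathlib
import Pool.Agent.TH727.Los
import Pool.Agent.Helper278.CEBall
import Pool.Agent.Helper278.Model

/-!
Tracial ultrapowers of the structures of continuous logic exist.
-/

set_option autoImplicit false
set_option linter.unusedSectionVars false

open scoped InnerProductSpace ComplexOrder Topology BoundedContinuousFunction
open Filter

namespace Pool.Agent.TH727

open Pool.Agent.H504R3.S
open Pool.Agent.Helper278 (Elt TracialState TrAlg trAlg n2 exists_ultrapower sigmaL sigma_trAlg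
  IsTracialUltrapower)
open Pool.Agent.Helper278.CE (Lm Lm_j Lm_mem MM exists_of_mem ball_ultra ballQ ext_j norm_j
  star_Lm exists_gns Ball)

section

variable {A : Type} [Ring A] [StarRing A] [Algebra ℂ A] [StarModule ℂ A] {τ : A →ₗ[ℂ] ℂ}
variable {K : Type} [NormedAddCommGroup K] [InnerProductSpace ℂ K] [CompleteSpace K]
variable (h : TrAlg τ) {j : A →ₗ[ℂ] K} (hd : DenseRange j)
  (hj : ∀ x y, ⟪j x, j y⟫_ℂ = τ (star x * y)) {B : Set A} (hB : Ball τ B)

include h hj hB hd in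
theorem norm_Lm_le' (a : A) (ha : a ∈ B) : ‖Lm j a‖ ≤ 1 := by
  refine ContinuousLinearMap.opNorm_le_bound _ zero_le_one fun ξ => ?_
  refine hd.induction_on (p := fun ξ => ‖Lm j a ξ‖ ≤ 1 * ‖ξ‖) ξ
    (isClosed_le (by fun_prop) (by fun_prop)) fun b => ?_
  rw [Lm_j h hd hj hB, norm_j hj, norm_j hj, one_mul]
  exact hB.contr a ha b

include h hj hB hd in
theorem Lm_one' : Lm j 1 = 1 := by
  apply ext_j hd
  intro x
  rw [Lm_j h hd hj hB, one_mul]
  rfl

include h hj hB hd in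
theorem Lm_mul' (a b : A) : Lm j (a * b) = Lm j a * Lm j b := by
  apply ext_j hd
  intro x
  show Lm j (a * b) (j x) = Lm j a (Lm j b (j x))
  rw [Lm_j h hd hj hB, Lm_j h hd hj hB, Lm_j h hd hj hB, mul_assoc]

include h hj hB hd in
theorem Lm_add' (a b : A) : Lm j (a + b) = Lm j a + Lm j b := by
  apply ext_j hd
  intro x
  show Lm j (a + b) (j x) = Lm j a (j x) + Lm j b (j x)
  rw [Lm_j h hd hj hB, Lm_j h hd hj hB, Lm_j h hd hj hB, add_mul, map_add]

include h hj hB hd in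
theorem Lm_smul' (c : ℂ) (a : A) : Lm j (c • a) = c • Lm j a := by
  apply ext_j hd
  intro x
  show Lm j (c • a) (j x) = c • Lm j a (j x)
  rw [Lm_j h hd hj hB, Lm_j h hd hj hB, smul_mul_assoc, map_smul]

end

/-- a sequence of vectors with one nonzero term -/
noncomputable def oneVec {K : Type} [NormedAddCommGroup K] (v : K) : ℕ → K :=
  fun k => if k = 0 then v else 0

theorem oneVec_summable {K : Type} [NormedAddCommGroup K] (v : K) :
    Summable fun k => ‖oneVec v k‖ ^ 2 := by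
  refine summable_of_ne_finset_zero (s := {0}) ?_
  intro k hk
  have : k ≠ 0 := by simpa using hk
  simp [oneVec, this]

theorem oneVec_tsum {K : Type} [NormedAddCommGroup K] [InnerProductSpace ℂ K] (v : K)
    (x : K →L[ℂ] K) : ∑' k, ⟪oneVec v k, x (oneVec v k)⟫_ℂ = ⟪v, x v⟫_ℂ := by
  rw [tsum_eq_single 0]
  · simp [oneVec]
  · intro k hk
    simp [oneVec, hk]

/-- Tracial ultrapowers of tracial von Neumann algebras exist. -/
theorem exists_isUltra (M : Str) (hM : M.IsTVN) (U : Ultrafilter ℕ) (hU : ∀ n, {n} ∉ U) :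
    ∃ (N : Str) (L : (ℕ → M.carrier) → N.carrier → Prop), N.IsTVN ∧ IsUltra M N U L := by
  have hnice := nice_of_tvn M hM
  obtain ⟨H, i1, i2, i3, N0, ξ, hs, rfl, h1, h2, h3⟩ := hM
  let T : TracialState N0 := Pool.Agent.Helper278.mkState N0
    (fun x => ∑' k, ⟪ξ k, (x : H →L[ℂ] H) (ξ k)⟫_ℂ) ⟨ξ, hs, fun x => rfl⟩
    ⟨h1, h2, fun x hx => by
      have := h3 x hx
      rw [this]
      exact Subtype.ext (zero_smul ℂ (1 : H →L[ℂ] H))⟩
  obtain ⟨Q, _, _, _, _, π, σ, hπ⟩ := exists_ultrapower T U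
  have hS := sigma_trAlg hπ
  obtain ⟨K, _, _, _, j, hd, hj⟩ := exists_gns hS
  have hB := ball_ultra hU hπ
  have hσ : ∀ q : Q, ⟪j 1, Lm j q (j 1)⟫_ℂ = σ q := by
    intro q
    rw [Lm_j hS hd hj hB, mul_one, hj, star_one, one_mul]
    rfl
  let N : Str := vnStr (MM j) (oneVec (j 1))
  let L : (ℕ → (vnStr N0 ξ).carrier) → N.carrier → Prop := fun x y =>
    ∃ b : ℕ →ᵇ Elt N0, (∀ k, b k = x k) ∧ y.1 = Lm j (π b)
  have htr : ∀ y : N.carrier, N.tr y = ⟪j 1, y.1 (j 1)⟫_ℂ := fun y => oneVec_tsum _ _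
  have hsurj : ∀ (r : ℕ) (y : K →L[ℂ] K), y ∈ MM j → ‖y‖ ≤ r →
      ∃ b : ℕ →ᵇ Elt N0, (∀ k, ‖b k‖ ≤ r) ∧ y = Lm j (π b) := by
    intro r y hy hyr
    have hr : (0 : ℝ) < (r : ℝ) + 1 ∨ True := Or.inr trivial
    rcases Nat.eq_zero_or_pos r with rfl | hpos
    · refine ⟨0, fun k => by simp, ?_⟩
      have h0 : y = 0 := by
        rw [← norm_le_zero_iff]
        simpa using hyr
      rw [map_zero, h0]
      have := Lm_smul' hS hd hj hB 0 0
      rw [zero_smul, zero_smul] at this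
      exact this.symm
    · have hrr : (0 : ℝ) < r := by exact_mod_cast hpos
      have hmem : (((r : ℝ)⁻¹ : ℝ) : ℂ) • y ∈ MM j := ((((r : ℝ)⁻¹ : ℝ) : ℂ) • (⟨y, hy⟩ : Elt (MM j))).2
      have hn : ‖(((r : ℝ)⁻¹ : ℝ) : ℂ) • y‖ ≤ 1 := by
        rw [norm_smul, Complex.norm_real, Real.norm_eq_abs, abs_of_pos (inv_pos.2 hrr),
          inv_mul_le_iff₀ hrr, mul_one]
        exact hyr
      obtain ⟨q, ⟨x, hx, rfl⟩, hq⟩ := exists_of_mem hS hd hj hB _ hmem hn
      refine ⟨((r : ℝ) : ℂ) • x, fun k => ?_, ?_⟩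
      · show ‖((r : ℝ) : ℂ) • x k‖ ≤ r
        rw [norm_smul, Complex.norm_real, Real.norm_eq_abs, abs_of_pos hrr]
        have := hx k
        nlinarith
      · rw [map_smul, Lm_smul' hS hd hj hB, ← hq, smul_smul, ← Complex.ofReal_mul,
          mul_inv_cancel₀ hrr.ne', Complex.ofReal_one, one_smul]
  have hsurj' : ∀ y : N.carrier, ∃ b : ℕ →ᵇ Elt N0, y.1 = Lm j (π b) := by
    intro y
    obtain ⟨r, hr⟩ := exists_nat_ge ‖y.1‖
    obtain ⟨b, _, hb⟩ := hsurj r y.1 y.2 hr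
    exact ⟨b, hb⟩
  have hlim : ∀ (r : ℕ) (b : ℕ →ᵇ Elt N0), (∀ k, ‖b k‖ ≤ r) → ‖Lm j (π b)‖ ≤ r := by
    intro r b hb
    rcases Nat.eq_zero_or_pos r with rfl | hpos
    · have h0 : b = 0 := by
        ext1 k
        have := hb k
        rw [Nat.cast_zero, norm_le_zero_iff] at this
        rw [this]
        rfl
      have := Lm_smul' hS hd hj hB 0 0
      rw [zero_smul, zero_smul] at this
      rw [h0, map_zero, this]
      simp
    · have hrr : (0 : ℝ) < r := by exact_mod_cast hpos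
      have h4 : π ((((r : ℝ)⁻¹ : ℝ) : ℂ) • b) ∈ ballQ π := by
        refine ⟨_, fun k => ?_, rfl⟩
        show ‖(((r : ℝ)⁻¹ : ℝ) : ℂ) • b k‖ ≤ 1
        rw [norm_smul, Complex.norm_real, Real.norm_eq_abs, abs_of_pos (inv_pos.2 hrr),
          inv_mul_le_iff₀ hrr, mul_one]
        exact hb k
      have h5 := norm_Lm_le' hS hd hj hB _ h4
      rw [map_smul, Lm_smul' hS hd hj hB, norm_smul, Complex.norm_real, Real.norm_eq_abs,
        abs_of_pos (inv_pos.2 hrr), inv_mul_le_iff₀ hrr, mul_one] at h5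
      exact h5
  have hTVN : N.IsTVN := by
    refine ⟨K, inferInstance, inferInstance, inferInstance, MM j, oneVec (j 1),
      oneVec_summable _, rfl, ?_, ?_, ?_⟩
    · rw [htr]
      show ⟪j 1, j 1⟫_ℂ = 1
      rw [hj, star_one, one_mul, hS.one]
    · intro x y
      obtain ⟨b, hb⟩ := hsurj' x
      obtain ⟨c, hc⟩ := hsurj' y
      rw [htr, htr]
      show ⟪j 1, (x.1 * y.1) (j 1)⟫_ℂ = ⟪j 1, (y.1 * x.1) (j 1)⟫_ℂ
      rw [hb, hc, ← Lm_mul' hS hd hj hB, ← Lm_mul' hS hd hj hB, hσ, hσ]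
      exact hS.comm _ _
    · intro x hx
      obtain ⟨b, hb⟩ := hsurj' x
      rw [htr] at hx
      have hx' : ⟪j 1, (star x.1 * x.1) (j 1)⟫_ℂ = 0 := hx
      rw [hb, star_Lm hS hd hj hB, ← Lm_mul' hS hd hj hB, hσ] at hx'
      have h0 : π b = 0 := hS.faithful _ hx'
      apply Subtype.ext
      show x.1 = (0 : ℂ) • (1 : K →L[ℂ] K)
      rw [hb, h0, zero_smul]
      have := Lm_smul' hS hd hj hB 0 0
      rw [zero_smul, zero_smul] at this
      exact this
  refine ⟨N, L, hTVN, hnice, nice_of_tvn N hTVN, ?_, ?_, ?_, ?_, ?_, ?_, ?_, ?_, ?_⟩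
  · rintro x y ⟨b, hb, -⟩
    obtain ⟨r, hr⟩ := exists_nat_ge ‖b‖
    refine ⟨r, fun k => ?_⟩
    rw [← hb k]
    exact (b.norm_coe_le_norm k).trans hr
  · exact ⟨1, fun k => rfl, by rw [map_one, Lm_one' hS hd hj hB]; rfl⟩
  · rintro x y x' y' ⟨b, hb, hy⟩ ⟨b', hb', hy'⟩
    refine ⟨b + b', fun k => ?_, ?_⟩
    · rw [BoundedContinuousFunction.add_apply, hb, hb']
      rfl
    · rw [map_add, Lm_add' hS hd hj hB, ← hy, ← hy']
      rfl
  · rintro x y x' y' ⟨b, hb, hy⟩ ⟨b', hb', hy'⟩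
    refine ⟨b * b', fun k => ?_, ?_⟩
    · rw [BoundedContinuousFunction.mul_apply, hb, hb']
      rfl
    · rw [map_mul, Lm_mul' hS hd hj hB, ← hy, ← hy']
      rfl
  · rintro x y ⟨b, hb, hy⟩
    refine ⟨star b, fun k => ?_, ?_⟩
    · show star (b k) = _
      rw [hb]
      rfl
    · rw [map_star, ← star_Lm hS hd hj hB, ← hy]
      rfl
  · rintro c x y ⟨b, hb, hy⟩
    refine ⟨c • b, fun k => ?_, ?_⟩
    · show c • (b k) = _
      rw [hb]
      rfl
    · rw [map_smul, Lm_smul' hS hd hj hB, ← hy]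
      rfl
  · rintro x y ⟨b, hb, hy⟩
    rw [htr, hy, hσ]
    refine (hπ.trace b).congr fun k => ?_
    rw [hb]
    rfl
  · intro r x hx
    let b : ℕ →ᵇ Elt N0 := BoundedContinuousFunction.ofNormedAddCommGroupDiscrete x r hx
    exact ⟨⟨Lm j (π b), Lm_mem _⟩, ⟨b, fun k => rfl, rfl⟩, hlim r b hx⟩
  · intro r y hy
    obtain ⟨b, hb, hyb⟩ := hsurj r y.1 y.2 hy
    exact ⟨fun k => b k, ⟨b, fun k => rfl, hyb⟩, hb⟩

end Pool.Agent.TH727
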