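import Mathlib
import Pool.Agent.TH727.UltraEx
import Pool.Agent.TH727.AutInv

/-!
The theory of the hyperfinite II_1 factor is not simple.
-/

set_option autoImplicit false
set_option linter.unusedSectionVars false

open scoped Topology
open Filter

namespace Pool.Agent.TH727

open Pool.Agent.H504R3.S

/-- a code of the restriction of `x` to `n` -/
noncomputable def code (n : ℕ) (x : ℕ → Bool) : ℕ :=
  (Fintype.equivFin (Fin n → Bool) (fun i => x i)).val

theorem code_lt (n : ℕ) (x : ℕ → Bool) : code n x < Fintype.card (Fin n → Bool) :=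
  (Fintype.equivFin (Fin n → Bool) (fun i => x i)).isLt

theorem code_ne {x z : ℕ → Bool} (h : z ≠ x) : ∃ m, ∀ n, m ≤ n → code n z ≠ code n x := by
  obtain ⟨i, hi⟩ := Function.ne_iff.1 h
  refine ⟨i + 1, fun n hn h1 => hi ?_⟩
  have h2 := (Fintype.equivFin (Fin n → Bool)).injective (Fin.ext h1)
  exact congrFun h2 ⟨i, hn⟩

theorem pair_ne {a b c d : ℕ} (h : a ≠ c ∨ b ≠ d) : Nat.pair a b ≠ Nat.pair c d := by
  intro h1
  rw [Nat.pair_eq_pair] at h1
  rcases h with h | h
  · exact h h1.1
  · exact h h1.2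

theorem not_countable_bool : ¬ Countable (ℕ → Bool) := by
  intro h
  obtain ⟨f, hf⟩ := exists_surjective_nat (ℕ → Bool)
  obtain ⟨n, hn⟩ := hf fun n => !(f n n)
  have h1 := congrFun hn n
  cases h2 : f n n <;> simp [h2] at h1

/-- formula for the distance of two variables -/
def distFm : Fm 2 := Fm.nrm (Tm.add (Tm.var 0) (Tm.scal (-1) (Tm.var 1)))

theorem distFm_val (M : Str) (x : Fin 2 → M.carrier) :
    distFm.val M x = M.norm2 (M.sub (x 0) (x 1)) := rfl

/-- the formula `‖X g X* - y‖₂` -/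
def conjFm : Fm (1 + 2) :=
  Fm.nrm (Tm.add (Tm.mul (Tm.mul (Tm.var 0) (Tm.var 1)) (Tm.adj (Tm.var 0)))
    (Tm.scal (-1) (Tm.var 2)))

theorem conjFm_val (M : Str) (a : Fin 1 → M.carrier) (y : Fin 2 → M.carrier) :
    conjFm.val M (Fin.append a y) =
      M.norm2 (M.sub (M.mul (M.mul (a 0) (y 0)) (M.adj (a 0))) (y 1)) := rfl

theorem norm2_self (M : Str) (hM : M.IsTVN) (x : M.carrier) : M.norm2 (M.sub x x) = 0 := by
  obtain ⟨H, i1, i2, i3, N0, ξ, T, rfl, hT⟩ := exists_state M hM
  have hA := Pool.Agent.Helper278.trAlg T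
  let X : Pool.Agent.Helper278.Elt N0 := x
  have e0 : (vnStr N0 ξ).sub x x = (0 : Pool.Agent.Helper278.Elt N0) := by
    show X + (-1 : ℂ) • X = 0
    rw [neg_one_smul, add_neg_cancel]
  rw [e0]
  have h1 := hA.n2_zero
  rw [← h1]
  show Real.sqrt _ = Real.sqrt _
  rw [hT]
  rfl

theorem not_simple (R : Str) (hR : R.IsHyperfinite) : ¬ IsSimpleTheory R := by
  classical
  intro hsimple
  obtain ⟨P, hP1, hPd, hPu⟩ := hyperfinite_facts R hR
  let U : Ultrafilter ℕ := hyperfilter ℕ
  have hUat : (U : Filter ℕ) ≤ atTop := by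
    rw [← Nat.cofinite_eq_atTop]
    exact hyperfilter_le_cofinite
  have hUn : ∀ n, {n} ∉ U := fun n => (Set.finite_singleton n).notMem_hyperfilter
  obtain ⟨N, L, hN, hL⟩ := exists_isUltra R hR.1 U hUn
  have hmod : IsModel R N := ⟨hN, hL.elemEq hUat⟩
  -- the elements
  have hex : ∀ (z : ℕ → Bool) (i : ℕ), ∃ y : N.carrier,
      L (fun n => P (Nat.pair (code n z) i)) y := by
    intro z i
    obtain ⟨y, hy, -⟩ := hL.lim 1 (fun n => P (Nat.pair (code n z) i)) (fun k => by
      rw [Nat.cast_one]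
      exact hP1 _)
    exact ⟨y, hy⟩
  choose E hE using hex
  -- the element `a`
  have hexa : ∀ n : ℕ, ∃ u : R.carrier, R.nrm u ≤ 1 ∧ ∀ k < Fintype.card (Fin n → Bool),
      R.mul (R.mul u (P (Nat.pair k 0))) (R.adj u) = P (Nat.pair k 1) := by
    intro n
    obtain ⟨σ, u, h1, -, h3, -, h5⟩ := hPu (fun k => Nat.pair k 0) (fun k => Nat.pair k 1)
      (Fintype.card (Fin n → Bool)) (fun p _ q _ h => (Nat.pair_eq_pair.1 h).1)
      (fun p _ q _ h => (Nat.pair_eq_pair.1 h).1)
    refine ⟨u, h3, fun k hk => ?_⟩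
    rw [h5, h1 k hk]
  choose u hu1 hu2 using hexa
  obtain ⟨a, ha, -⟩ := hL.lim 1 u (fun k => by rw [Nat.cast_one]; exact hu1 k)
  -- distances
  have hdist : ∀ (z z' : ℕ → Bool) (i i' : ℕ), (z ≠ z' ∨ i ≠ i') →
      N.norm2 (N.sub (E z i) (E z' i')) = Real.sqrt (1 / 2) := by
    intro z z' i i' hne
    have h1 := hL.los hUat distFm
      (fun n => ![P (Nat.pair (code n z) i), P (Nat.pair (code n z') i')]) ![E z i, E z' i']
      (fun j => by
        fin_cases j
        · exact hE z i
        · exact hE z' i')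
    rw [distFm_val] at h1
    have h2 : ∀ᶠ n in (U : Filter ℕ), Real.sqrt (1 / 2) = distFm.val R
        ![P (Nat.pair (code n z) i), P (Nat.pair (code n z') i')] := by
      have h3 : ∃ m, ∀ n, m ≤ n → code n z ≠ code n z' ∨ i ≠ i' := by
        rcases hne with h | h
        · obtain ⟨m, hm⟩ := code_ne h
          exact ⟨m, fun n hn => Or.inl (hm n hn)⟩
        · exact ⟨0, fun n _ => Or.inr h⟩
      obtain ⟨m, hm⟩ := h3
      refine ((eventually_ge_atTop m).filter_mono hUat).mono fun n hn => ?_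
      rw [distFm_val]
      exact (hPd _ _ (pair_ne (hm n hn))).symm
    exact tendsto_nhds_unique h1 (tendsto_const_nhds.congr' h2)
  have hsq : (1 / 2 : ℝ) < Real.sqrt (1 / 2) := by
    rw [Real.lt_sqrt (by norm_num)]
    norm_num
  have hinj : ∀ (z z' : ℕ → Bool) (i i' : ℕ), E z i = E z' i' → z = z' ∧ i = i' := by
    intro z z' i i' h
    by_contra hcon
    have h1 : z ≠ z' ∨ i ≠ i' := by
      by_contra h2
      push Not at h2
      exact hcon h2
    have h2 := hdist z z' i i' h1
    rw [h, norm2_self N hN] at h2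
    linarith
  -- the set of parameters
  let B : Set N.carrier := {w | ∃ (z : ℕ → Bool) (i : ℕ), i ≤ 1 ∧ w = E z i}
  obtain ⟨A, hAB, ⟨D, hDA, hDc, hD⟩, hdiv⟩ :=
    hsimple N B N id 1 (fun _ => a) hmod hmod (fun n φ x => rfl)
  have hAc : A.Countable := by
    refine hDc.mono fun w hw => ?_
    obtain ⟨d, hd, hwd⟩ := hD w hw (1 / 2) (by norm_num)
    obtain ⟨z, i, -, rfl⟩ := hAB hw
    obtain ⟨z', i', -, rfl⟩ := hAB (hDA hd)
    by_cases h : z ≠ z' ∨ i ≠ i'
    · rw [hdist z z' i i' h] at hwd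
      linarith
    · push Not at h
      rw [h.1, h.2]
      exact hd
  obtain ⟨x, hx⟩ : ∃ x : ℕ → Bool, E x 1 ∉ A := by
    by_contra hcon
    push Not at hcon
    have h1 : Set.InjOn (fun x : ℕ → Bool => E x 1) ((fun x : ℕ → Bool => E x 1) ⁻¹' A) :=
      fun z _ z' _ h => (hinj z z' 1 1 h).1
    have h2 := hAc.preimage_of_injOn h1
    have h3 : (fun x : ℕ → Bool => E x 1) ⁻¹' A = Set.univ :=
      Set.eq_univ_of_forall hcon
    rw [h3, Set.countable_univ_iff] at h2
    exact not_countable_bool h2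
  apply hdiv
  let c : ℕ → B → N.carrier := fun p b => if b.1 = E x 1 then E x (p + 1) else b.1
  refine ⟨N, id, c, hmod, fun n φ x => rfl, fun b => ?_, ?_, ?_⟩
  · show (if b.1 = E x 1 then E x (0 + 1) else b.1) = b.1
    split_ifs with h
    · rw [h]
    · rfl
  · -- indiscernibility
    intro n φ s γ hγ
    have hdesc : ∀ i : Fin n, ∃ (z : ℕ → Bool) (l l' : ℕ),
        Sum.elim (fun v : ℕ × B => c (γ v.1) v.2) (fun a : (id '' A : Set N.carrier) => a.1) (s i)
          = E z l' ∧
        Sum.elim (fun v : ℕ × B => c v.1 v.2) (fun a : (id '' A : Set N.carrier) => a.1) (s i)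
          = E z l ∧
        ((z ≠ x ∧ l' = l) ∨ (z = x ∧ ((l = 0 ∧ l' = 0) ∨ ∃ p, l = p + 1 ∧ l' = γ p + 1))) := by
      intro i
      have hfix : ∀ w ∈ B, w ≠ E x 1 → ∃ (z : ℕ → Bool) (l : ℕ), w = E z l ∧
          (z ≠ x ∨ (z = x ∧ l = 0)) := by
        rintro w ⟨z, l, hl, rfl⟩ hne
        refine ⟨z, l, rfl, ?_⟩
        by_cases hz : z = x
        · right
          refine ⟨hz, ?_⟩
          have : l = 0 ∨ l = 1 := by omega
          rcases this with h | h
          · exact h
          · rw [hz, h] at hne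
            exact absurd rfl hne
        · exact Or.inl hz
      rcases s i with ⟨p, b⟩ | ⟨w, hw⟩
      · show ∃ (z : ℕ → Bool) (l l' : ℕ), (if b.1 = E x 1 then E x (γ p + 1) else b.1) = E z l' ∧
          (if b.1 = E x 1 then E x (p + 1) else b.1) = E z l ∧ _
        by_cases hb : b.1 = E x 1
        · rw [if_pos hb, if_pos hb]
          exact ⟨x, p + 1, γ p + 1, rfl, rfl, Or.inr ⟨rfl, Or.inr ⟨p, rfl, rfl⟩⟩⟩
        · rw [if_neg hb, if_neg hb]
          obtain ⟨z, l, h1, h2⟩ := hfix b.1 b.2 hb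
          refine ⟨z, l, l, h1, h1, ?_⟩
          rcases h2 with h2 | h2
          · exact Or.inl ⟨h2, rfl⟩
          · exact Or.inr ⟨h2.1, Or.inl ⟨h2.2, h2.2⟩⟩
      · show ∃ (z : ℕ → Bool) (l l' : ℕ), w = E z l' ∧ w = E z l ∧ _
        have hwA : w ∈ A := by
          obtain ⟨w', hw', rfl⟩ := hw
          exact hw'
        obtain ⟨z, l, h1, h2⟩ := hfix w (hAB hwA) (fun h => hx (h ▸ hwA))
        refine ⟨z, l, l, h1, h1, ?_⟩
        rcases h2 with h2 | h2
        · exact Or.inl ⟨h2, rfl⟩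
        · exact Or.inr ⟨h2.1, Or.inl ⟨h2.2, h2.2⟩⟩
    choose z l l' hz' hz hzl using hdesc
    have e1 : (fun i => Sum.elim (fun v : ℕ × B => c (γ v.1) v.2)
        (fun a : (id '' A : Set N.carrier) => a.1) (s i)) = fun i => E (z i) (l' i) := funext hz'
    have e2 : (fun i => Sum.elim (fun v : ℕ × B => c v.1 v.2)
        (fun a : (id '' A : Set N.carrier) => a.1) (s i)) = fun i => E (z i) (l i) := funext hz
    rw [e1, e2]
    have t1 := hL.los hUat φ (fun n i => P (Nat.pair (code n (z i)) (l' i)))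
      (fun i => E (z i) (l' i)) (fun i => hE _ _)
    have t2 := hL.los hUat φ (fun n i => P (Nat.pair (code n (z i)) (l i)))
      (fun i => E (z i) (l i)) (fun i => hE _ _)
    refine tendsto_nhds_unique t1 (t2.congr' ?_)
    -- the codes are eventually different
    have h3 : ∃ m, ∀ k, m ≤ k → ∀ i : Fin n, z i ≠ x → code k (z i) ≠ code k x := by
      have h4 : ∀ i : Fin n, ∃ m, ∀ k, m ≤ k → z i ≠ x → code k (z i) ≠ code k x := by
        intro i
        by_cases h : z i = x
        · exact ⟨0, fun k _ h5 => absurd h h5⟩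
        · obtain ⟨m, hm⟩ := code_ne h
          exact ⟨m, fun k hk _ => hm k hk⟩
      choose m hm using h4
      refine ⟨∑ i, m i, fun k hk i => hm i k ?_⟩
      exact (Finset.single_le_sum (f := m) (fun _ _ => Nat.zero_le _) (Finset.mem_univ i)).trans hk
    obtain ⟨m, hm⟩ := h3
    refine ((eventually_ge_atTop m).filter_mono hUat).mono fun k hk => ?_
    obtain ⟨σ, v, h5, h6, -, h8, h9⟩ := hPu (fun p => Nat.pair (code k x) (p + 1))
      (fun p => Nat.pair (code k x) (γ p + 1)) (∑ i, l i)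
      (fun p _ q _ h => by
        have := (Nat.pair_eq_pair.1 h).2
        omega)
      (fun p _ q _ h => by
        have := (Nat.pair_eq_pair.1 h).2
        exact hγ.injective (by omega))
    have h10 := h8.val φ (fun i => P (Nat.pair (code k (z i)) (l i)))
    refine h10.symm.trans ?_
    show φ.val R (fun i => R.mul (R.mul v (P (Nat.pair (code k (z i)) (l i)))) (R.adj v)) =
      φ.val R (fun i => P (Nat.pair (code k (z i)) (l' i)))
    congr 1
    funext i
    rw [h9]
    congr 1
    rcases hzl i with ⟨h11, h12⟩ | ⟨h11, ⟨h12, h13⟩ | ⟨p, h12, h13⟩⟩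
    · rw [h12]
      refine h6 _ fun p _ => ⟨?_, ?_⟩
      · exact pair_ne (Or.inl (hm k hk i h11))
      · exact pair_ne (Or.inl (hm k hk i h11))
    · rw [h12, h13]
      refine h6 _ fun p _ => ⟨?_, ?_⟩
      · exact pair_ne (Or.inr (by omega))
      · exact pair_ne (Or.inr (by omega))
    · rw [h11, h12, h13]
      refine h5 p ?_
      have := Finset.single_le_sum (f := l) (fun _ _ => Nat.zero_le _) (Finset.mem_univ i)
      omega
  · -- inconsistency
    rintro ⟨M'', h, a', hM'', hh, hreal⟩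
    have hb0 : E x 0 ∈ B := ⟨x, 0, by omega, rfl⟩
    have hb1 : E x 1 ∈ B := ⟨x, 1, le_refl _, rfl⟩
    have hval : conjFm.val N (Fin.append (fun _ : Fin 1 => a) ![E x 0, E x 1]) = 0 := by
      rw [conjFm_val]
      have t1 := hL.los hUat conjFm
        (fun n => ![u n, P (Nat.pair (code n x) 0), P (Nat.pair (code n x) 1)])
        ![a, E x 0, E x 1] (fun j => by
          fin_cases j
          · exact ha
          · exact hE x 0
          · exact hE x 1)
      have t2 : ∀ n, conjFm.val R ![u n, P (Nat.pair (code n x) 0), P (Nat.pair (code n x) 1)]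
          = 0 := by
        intro n
        show R.norm2 (R.sub (R.mul (R.mul (u n) (P (Nat.pair (code n x) 0))) (R.adj (u n)))
          (P (Nat.pair (code n x) 1))) = 0
        rw [hu2 n _ (code_lt n x)]
        exact norm2_self R hR.1 _
      have t3 := tendsto_nhds_unique t1 (tendsto_const_nhds.congr fun n => (t2 n).symm)
      exact t3
    have key : ∀ i : ℕ, M''.mul (M''.mul (a' 0) (h (E x 0))) (M''.adj (a' 0)) =
        h (E x (i + 1)) := by
      intro i
      have h1 := hreal i 2 conjFm ![⟨E x 0, hb0⟩, ⟨E x 1, hb1⟩]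
      have h2 : (fun k => id ((![⟨E x 0, hb0⟩, ⟨E x 1, hb1⟩] : Fin 2 → B) k).1 :
          Fin 2 → N.carrier) = ![E x 0, E x 1] := by
        funext k
        fin_cases k <;> rfl
      rw [h2, hval, conjFm_val] at h1
      have h3 : c i ⟨E x 0, hb0⟩ = E x 0 := by
        show (if E x 0 = E x 1 then E x (i + 1) else E x 0) = E x 0
        rw [if_neg]
        intro h4
        have := (hinj _ _ _ _ h4).2
        omega
      have h4 : c i ⟨E x 1, hb1⟩ = E x (i + 1) := by
        show (if E x 1 = E x 1 then E x (i + 1) else E x 1) = E x (i + 1)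
        rw [if_pos rfl]
      have h5 := eq_of_norm2 M'' hM''.1 _ _ h1
      show M''.mul (M''.mul (a' 0) (h (E x 0))) (M''.adj (a' 0)) = h (E x (i + 1))
      rw [← h4]
      conv_lhs => rw [← h3]
      exact h5
    have h1 : h (E x (0 + 1)) = h (E x (1 + 1)) := (key 0).symm.trans (key 1)
    have h2 := hh 2 distFm ![E x 1, E x 2]
    rw [distFm_val, distFm_val] at h2
    have h3 : N.norm2 (N.sub (E x 1) (E x 2)) = Real.sqrt (1 / 2) :=
      hdist x x 1 2 (Or.inr (by omega))
    have h4 : M''.norm2 (M''.sub (h (E x 1)) (h (E x 2))) = Real.sqrt (1 / 2) :=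
      h2.trans h3
    rw [show h (E x 1) = h (E x 2) from h1, norm2_self M'' hM''.1] at h4
    linarith

end Pool.Agent.TH727
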